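import Pool.Agent.H951.FX.StmR

/-!
# Project FX, part 3: assembly, slopes in the cube (`S_FVQ`)
-/

set_option autoImplicit false

open MeasureTheory
open scoped Classical ENNReal NNReal

namespace Pool.Agent.H377.FXR

open Pool.Agent.H951.FH Pool.Agent.H951.FX

/-- the numbers -/
theorem nums {d : ℕ} {c β τ s ε C0 W σ Q : ℝ} {k : ℕ} (hc : 0 < c) (hs0 : 0 ≤ s)
    (hW : Real.exp (-ε) ^ k * ((2 : ℝ) ^ k) ^ β / 2 < W)
    (hσ : σ = Real.exp (-ε) ^ k * ((2 : ℝ) ^ k) ^ τ / 2)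
    (hQ0 : 0 ≤ Q) (hQ : Q ≤ (2 : ℝ) ^ (s * (k + 1)))
    (h1 : Real.log W + (d + c) * Real.log σ ≤ C0 + d * (k * Real.log 2) + c * Real.log Q) :
    k * (β * Real.log 2 + (d + c) * τ * Real.log 2 - d * Real.log 2 - c * s * Real.log 2) -
      (d + c + 1) * ε * k ≤ C0 + (1 + d + c) * Real.log 2 + c * s * Real.log 2 := by
  have hlg : ∀ x : ℝ, Real.log (Real.exp (-ε) ^ k * ((2 : ℝ) ^ k) ^ x / 2) =
      k * (-ε) + x * (k * Real.log 2) - Real.log 2 := by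
    intro x
    have h2 : (0 : ℝ) < ((2 : ℝ) ^ k) ^ x := Real.rpow_pos_of_pos (by positivity) _
    have h3 : (0 : ℝ) < Real.exp (-ε) ^ k := by positivity
    rw [Real.log_div (mul_pos h3 h2).ne' two_ne_zero, Real.log_mul h3.ne' h2.ne', Real.log_pow,
      Real.log_exp, Real.log_rpow (by positivity), Real.log_pow]
  have hWl : k * (-ε) + β * (k * Real.log 2) - Real.log 2 ≤ Real.log W := by
    rw [← hlg β]
    refine Real.log_le_log ?_ hW.le
    have h2 : (0 : ℝ) < ((2 : ℝ) ^ k) ^ β := Real.rpow_pos_of_pos (by positivity) _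
    positivity
  have hσl : Real.log σ = k * (-ε) + τ * (k * Real.log 2) - Real.log 2 := by rw [hσ, hlg τ]
  have hlog2 : 0 < Real.log 2 := Real.log_pos one_lt_two
  have hQl : Real.log Q ≤ s * (k + 1) * Real.log 2 := by
    rcases hQ0.eq_or_lt with h | h
    · rw [← h, Real.log_zero]
      positivity
    · refine (Real.log_le_log h hQ).trans (le_of_eq ?_)
      rw [Real.log_rpow two_pos]
  have h2 : c * Real.log Q ≤ c * (s * (k + 1) * Real.log 2) := mul_le_mul_of_nonneg_left hQl hc.le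
  rw [hσl] at h1
  linarith

theorem t_FVQ : S_COV → S_SELD → S_FRO → S_FROD → S_ONEQ → S_FVQ := by
  intro hCOV hSEL hFRO hFROD hONEQ d c hd hc hCnt K V B β τ hβ hτ hτ1 hV hV0 hT
  obtain ⟨C0, hONE⟩ := hONEQ d c hd hc hCnt
  by_contra hcon
  rw [not_le] at hcon
  -- the exponent `s`
  obtain ⟨y, hy1, hy2⟩ := exists_between hcon
  have hyt : y ≠ ⊤ := (hy2.trans ENNReal.ofReal_lt_top).ne
  set s : ℝ := y.toReal with hs
  have hys : ENNReal.ofReal s = y := ENNReal.ofReal_toReal hyt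
  have hs0 : 0 ≤ s := ENNReal.toReal_nonneg
  have hs1 : dimH K < ENNReal.ofReal s := by rw [hys]; exact hy1
  have hs2 : s < τ + (d * τ - (d - β)) / c := by
    rw [← hys] at hy2
    exact (ENNReal.ofReal_lt_ofReal_iff_of_nonneg hs0).1 hy2
  have hlog2 : 0 < Real.log 2 := Real.log_pos one_lt_two
  set g : ℝ := β * Real.log 2 + (d + c) * τ * Real.log 2 - d * Real.log 2 -
    c * s * Real.log 2 with hg
  have hg0 : 0 < g := by
    have h1 : s * c < τ * c + (d * τ - (d - β)) := by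
      have h2 := mul_lt_mul_of_pos_right hs2 hc
      rwa [add_mul, div_mul_cancel₀ _ hc.ne'] at h2
    have h3 : g = Real.log 2 * ((τ * c + (d * τ - (d - β))) - s * c) := by rw [hg]; ring
    rw [h3]
    exact mul_pos hlog2 (sub_pos.2 h1)
  have hd0 : (0 : ℝ) ≤ d := Nat.cast_nonneg _
  have hdc : (0 : ℝ) < d + c + 1 := by positivity
  set ε : ℝ := g / (2 * (d + c + 1)) with hε
  have hε0 : 0 < ε := by positivity
  have hεg : (d + c + 1) * ε = g / 2 := by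
    rw [hε]
    field_simp
  set ρ : ℝ := Real.exp (-ε) with hρ
  have hρ0 : 0 < ρ := Real.exp_pos _
  have hρ1 : ρ < 1 := by
    rw [hρ, Real.exp_lt_one_iff]
    linarith
  set T : (Fin d → ℝ) → Set ℝ := fun v => {t : ℝ | t ∈ Set.Ico (0 : ℝ) 1 ∧
    (Fin.cons t (fun i => B v i + t * v i) : Fin (d + 1) → ℝ) ∈ K} with hTdef
  have hTsub : ∀ v, T v ⊆ Set.Ico 0 1 := fun v t ht => ht.1
  obtain ⟨k1, hsel⟩ := hSEL d V T β τ ρ ρ hβ hτ hρ0 hρ1 hρ0 hρ1 hV hV0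
    (fun v hv => ⟨hTsub v, hT v hv⟩)
  obtain ⟨k1', hk1'⟩ := exists_nat_gt
    ((C0 + (1 + d + c) * Real.log 2 + c * s * Real.log 2) / (g / 2))
  obtain ⟨Q, hQ1, hQ2⟩ := hCOV (d + 1) K s (max k1 k1') hs0 hs1
  set U : (Fin d → ℝ) → ℕ → Set ℝ := fun v k => {t : ℝ | ∃ q ∈ Q k, ∀ i : Fin (d + 1),
    |(2 : ℝ) ^ k * (Fin.cons t (fun i => B v i + t * v i) : Fin (d + 1) → ℝ) i - q i| < 3} with hU
  obtain ⟨k, hk, hvol⟩ := hsel (max k1 k1') (le_max_left _ _) U (by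
    intro v hv t ht
    obtain ⟨k, hk, q, hq, h3⟩ := hQ2 _ ht.2
    exact ⟨k, hk, q, hq, h3⟩)
  have hkk : (C0 + (1 + d + c) * Real.log 2 + c * s * Real.log 2) / (g / 2) < k := by
    refine hk1'.trans_le ?_
    exact_mod_cast (le_max_right k1 k1').trans hk
  set W₀ : Set (Fin d → ℝ) := {v | v ∈ V ∧ ∀ C : Finset (ℕ × ℕ), Cv C (T v ∩ U v k) →
    ρ ^ k < Sm τ C} with hW₀
  obtain ⟨W, C', hWsub, hWcnt, hWcov, hWsum⟩ := hFROD d β k W₀ hβ (fun v hv => hV v hv.1)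
  set σ : ℝ := ρ ^ k * ((2 : ℝ) ^ k) ^ τ / 2 with hσ
  have h2k : (0 : ℝ) < ((2 : ℝ) ^ k) ^ τ := Real.rpow_pos_of_pos (by positivity) _
  have h2kβ : (0 : ℝ) < ((2 : ℝ) ^ k) ^ β := Real.rpow_pos_of_pos (by positivity) _
  have hσ0 : 0 < σ := by rw [hσ]; positivity
  have hWcard : ρ ^ k * ((2 : ℝ) ^ k) ^ β / 2 < W.card := by
    have h1 : ρ ^ k < 2 * (W.card : ℝ) / ((2 : ℝ) ^ k) ^ β := (hvol C' hWcov).trans_le hWsum
    rw [lt_div_iff₀ h2kβ] at h1
    linarith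
  have hWpos : 0 < ρ ^ k * ((2 : ℝ) ^ k) ^ β / 2 := by positivity
  have hWne : W.Nonempty := by
    rw [← Finset.card_pos]
    have h1 : (0 : ℝ) < W.card := hWpos.trans hWcard
    exact_mod_cast h1
  -- the finite sets
  have hP : ∀ v, ∃ P : Finset ℝ, v ∈ W₀ → (P : Set ℝ) ⊆ T v ∩ U v k ∧ σ ≤ P.card ∧
      ∀ l ≤ k, ∀ p : ℕ, ((P.filter fun t => (p : ℝ) / 2 ^ l ≤ t ∧ t < ((p : ℝ) + 1) / 2 ^ l).card :
      ℝ) ≤ ((2 : ℝ) ^ (k - l)) ^ τ := by
    intro v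
    by_cases hv : v ∈ W₀
    · obtain ⟨P, C, h1, h2, -, h4, h5⟩ := hFRO τ k (T v ∩ U v k) hτ hτ1
        (fun t ht => hTsub v ht.1)
      refine ⟨P, fun _ => ⟨h1, ?_, h2⟩⟩
      have h6 : ρ ^ k < Sm τ C := hv.2 C h4
      have h7 : ρ ^ k < 2 * (P.card : ℝ) / ((2 : ℝ) ^ k) ^ τ := lt_of_lt_of_le h6 h5
      rw [lt_div_iff₀ h2k] at h7
      rw [hσ]
      linarith
    · exact ⟨∅, fun h => absurd h hv⟩
  choose P hP using hP
  have hWmem : ∀ v ∈ W, v ∈ W₀ := fun v hv => hWsub (Finset.mem_coe.2 hv)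
  have hone := hONE k W B P (Q k) σ hσ0 hWne
    (fun v hv => hV v (hWmem v hv).1)
    (fun p => by
      have h1 := hWcnt k le_rfl p
      rwa [Nat.sub_self, pow_zero, Real.one_rpow] at h1)
    (fun v hv => by
      obtain ⟨h1, h2, h3⟩ := hP v (hWmem v hv)
      refine ⟨fun t ht => hTsub v (h1 ht).1, h2, fun p => ?_, fun t ht => ?_⟩
      · have h4 := h3 k le_rfl p
        rwa [Nat.sub_self, pow_zero, Real.one_rpow] at h4
      obtain ⟨q, hq, h4⟩ := (h1 ht).2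
      refine ⟨q, hq, ?_, fun i => ?_⟩
      · have := h4 0
        rwa [Fin.cons_zero] at this
      · have := h4 i.succ
        rwa [Fin.cons_succ] at this)
  have hfin := nums (k := k) (s := s) (ε := ε) (β := β) (τ := τ) hc hs0 hWcard hσ
    (Nat.cast_nonneg _) (hQ1 k) hone
  rw [hεg] at hfin
  rw [div_lt_iff₀ (by positivity)] at hkk
  have h5 : (k : ℝ) * g - g / 2 * k = k * (g / 2) := by ring
  have h6 : (k : ℝ) * g - g / 2 * k ≤
      C0 + (1 + d + c) * Real.log 2 + c * s * Real.log 2 := hfin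
  rw [h5] at h6
  exact absurd h6 (not_le.2 hkk)

end Pool.Agent.H377.FXR
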